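import Pool.Agent.H47.MM.Defs
import Pool.Agent.H47.MM.Ace
import Pool.Agent.H91.ATT.All

/-!
# THEOREM M, family: the exactly invariant field in a Moebius chart

`fld`: an invariant field on a fully invariant set `G` of positive area of `Rf v` gives, in a Moebius chart `φ` (`Rf u ∘ φ = φ ∘ Rf v`), a field `μ` of the plane with `FI (Rf u) μ` and a point `x`, `φ⁻¹ x ∈ G`, at which `μ` is approximately continuous.
PROOF. Remove from `G` the grand orbits of infinity and of `φ⁻¹ ∞` (countable), transport by `lf_tr` for `φ⁻¹`, put `μ = 0` off the image of `G`; `ace`.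
-/

set_option autoImplicit false

open Filter Topology Polynomial Metric Set MeasureTheory

namespace Pool.Agent.H18.MF

open Pool.Agent.H44.Fatou (rat rat_continuous rat_coe rat_coe_of_ne pt)
open Pool.Agent.H32.BT Pool.Agent.H79.Eul Pool.Agent.H79.Par
open Pool.Agent.H44.RC (JS J6 Om)
open Pool.Agent.H61.TT (gg)
open Pool.Agent.H91.ATT (LFd lf_tr mb_symm mb_plane Mb rf_ne rf_gg der_rf)
open Pool.Agent.H35.EX (chord)
open Pool.Agent.H64.NC (js_conj)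
open Pool.Agent.H15.LOC (tr_m UDn Lim)
open Pool.Agent.H47.RJ (cnt_le)
open Pool.Agent.H47.MM (FI)
open Pool.Agent.H47.OI (AC)

/-- the grand orbit of `p` -/
def GO (f : OnePoint ℂ → OnePoint ℂ) (p : OnePoint ℂ) : Set (OnePoint ℂ) := {y | ∃ m n : ℕ, f^[m] y = f^[n] p}

theorem go_self (f : OnePoint ℂ → OnePoint ℂ) (p : OnePoint ℂ) : p ∈ GO f p := ⟨0, 0, rfl⟩

theorem go_inv (f : OnePoint ℂ → OnePoint ℂ) (p x : OnePoint ℂ) : f x ∈ GO f p ↔ x ∈ GO f p := by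
  constructor
  · rintro ⟨m, n, h⟩
    exact ⟨m + 1, n, by rw [Function.iterate_succ_apply]; exact h⟩
  · rintro ⟨m, n, h⟩
    refine ⟨m, n + 1, ?_⟩
    rw [← Function.iterate_succ_apply, Function.iterate_succ_apply', Function.iterate_succ_apply', h]

theorem go_count {d : ℕ} (hd : 1 ≤ d) {v : E d} (hcop : IsCoprime (pol v.1) (pol v.2))
    (hdeg : max (pol v.1).natDegree (pol v.2).natDegree = d) (p : OnePoint ℂ) : (GO (Rf v) p).Countable := by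
  have h1 : GO (Rf v) p = ⋃ m : ℕ, ⋃ n : ℕ, {y | (Rf v)^[m] y = (Rf v)^[n] p} := by
    ext y
    simp only [GO, mem_iUnion]
    rfl
  rw [h1]
  exact Set.countable_iUnion fun m => Set.countable_iUnion fun n => (cnt_le hd hcop hdeg m _).1.countable

/-- Moebius maps preserve null sets -/
theorem mb_null {φ : OnePoint ℂ ≃ₜ OnePoint ℂ} (hφ : Mb φ) {G : Set ℂ} (hG : 0 < volume G)
    (hni : ∀ w ∈ G, φ.symm (w : OnePoint ℂ) ≠ OnePoint.infty) :
    0 < volume {z : ℂ | ∃ w ∈ G, φ (z : OnePoint ℂ) = (w : OnePoint ℂ)} := by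
  rw [pos_iff_ne_zero]
  intro h0
  refine hG.ne' ?_
  obtain ⟨a, b, c, e, -, h1, h2⟩ := mb_plane hφ
  obtain ⟨S, hS⟩ : ∃ S : Set ℂ, S = {z : ℂ | ∃ w ∈ G, φ (z : OnePoint ℂ) = (w : OnePoint ℂ)} := ⟨_, rfl⟩
  rw [← hS] at h0
  have hSn : ∀ z ∈ S, c * z + e ≠ 0 := by
    intro z hz h3
    rw [hS] at hz
    obtain ⟨w, -, hw⟩ := hz
    rw [h2 z h3] at hw
    exact OnePoint.infty_ne_coe w hw
  have hsub : G ⊆ (fun z : ℂ => (a * z + b) / (c * z + e)) '' S := by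
    intro w hw
    obtain ⟨z, hz⟩ := OnePoint.ne_infty_iff_exists.1 (hni w hw)
    have hz1 : φ (z : OnePoint ℂ) = (w : OnePoint ℂ) := by
      rw [hz, φ.apply_symm_apply]
    have hzS : z ∈ S := by
      rw [hS]
      exact ⟨w, hw, hz1⟩
    refine ⟨z, hzS, ?_⟩
    rw [h1 z (hSn z hzS)] at hz1
    exact OnePoint.coe_injective hz1
  refine measure_mono_null hsub ?_
  refine MeasureTheory.addHaar_image_eq_zero_of_differentiableOn_of_addHaar_eq_zero (μ := volume) ?_ h0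
  intro z hz
  have h3 : DifferentiableAt ℂ (fun z : ℂ => (a * z + b) / (c * z + e)) z := by
    refine DifferentiableAt.div (by fun_prop) (by fun_prop) (hSn z hz)
  exact (h3.restrictScalars ℝ).differentiableWithinAt

theorem fld {d : ℕ} (hd : 1 ≤ d) {v u : E d} (hcop : IsCoprime (pol v.1) (pol v.2))
    (hdeg : max (pol v.1).natDegree (pol v.2).natDegree = d) {φ : OnePoint ℂ ≃ₜ OnePoint ℂ} (hφ : Mb φ)
    (conj : ∀ x, Rf u (φ x) = φ (Rf v x)) {G : Set (OnePoint ℂ)} (hGJ : G ⊆ JS (Rf v)) (hGi : ∀ x, Rf v x ∈ G ↔ x ∈ G)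
    (hGm : MeasurableSet {z : ℂ | (z : OnePoint ℂ) ∈ G}) (hGp : 0 < volume {z : ℂ | (z : OnePoint ℂ) ∈ G}) {ν : ℂ → ℂ}
    (hν : LFd (Rf v) G ν) :
    ∃ (μ : ℂ → ℂ) (x : ℂ), FI (Rf u) μ ∧ (x : OnePoint ℂ) ∈ JS (Rf u) ∧ ‖μ x‖ = 1 ∧ AC μ x (μ x) ∧
      φ.symm (x : OnePoint ℂ) ∈ G := by
  classical
  have conj' : ∀ x, Rf v (φ.symm x) = φ.symm (Rf u x) := by
    intro x
    rw [φ.eq_symm_apply, ← conj, φ.apply_symm_apply]
  obtain ⟨Q, hQ⟩ : ∃ Q : Set (OnePoint ℂ), Q = GO (Rf v) OnePoint.infty ∪ GO (Rf v) (φ.symm OnePoint.infty) := ⟨_, rfl⟩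
  have hQc : Q.Countable := by
    rw [hQ]
    exact (go_count hd hcop hdeg _).union (go_count hd hcop hdeg _)
  have hQi : ∀ x, Rf v x ∈ Q ↔ x ∈ Q := by
    intro x
    rw [hQ, mem_union, mem_union, go_inv, go_inv]
  have hQ1 : OnePoint.infty ∈ Q := by rw [hQ]; exact Or.inl (go_self _ _)
  have hQ2 : φ.symm OnePoint.infty ∈ Q := by rw [hQ]; exact Or.inr (go_self _ _)
  obtain ⟨G1, hG1⟩ : ∃ G1 : Set ℂ, G1 = {z : ℂ | (z : OnePoint ℂ) ∈ G ∧ (z : OnePoint ℂ) ∉ Q} := ⟨_, rfl⟩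
  have hm1 : ∀ z : ℂ, z ∈ G1 ↔ (z : OnePoint ℂ) ∈ G ∧ (z : OnePoint ℂ) ∉ Q := fun z => by rw [hG1]; rfl
  have hQcc : {z : ℂ | (z : OnePoint ℂ) ∈ Q}.Countable := countable_coe hQc
  have hG1e : G1 = {z : ℂ | (z : OnePoint ℂ) ∈ G} \ {z : ℂ | (z : OnePoint ℂ) ∈ Q} := by
    rw [hG1]
    rfl
  have hG1m : MeasurableSet G1 := by
    rw [hG1e]
    exact hGm.diff hQcc.measurableSet
  have hG1p : 0 < volume G1 := by
    rw [hG1e, measure_sdiff_null (hQcc.measure_zero volume)]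
    exact hGp
  have hpole : ∀ z : ℂ, (pol v.2).eval z = 0 → Rf v (z : OnePoint ℂ) = OnePoint.infty := by
    intro z hz
    show rat (pol v.1) (pol v.2) _ = _
    rw [rat_coe]
    unfold pt
    rw [if_pos hz]
  have hGb : ∀ z ∈ G1, (pol v.2).eval z ≠ 0 := by
    intro z hz h0
    refine ((hm1 z).1 hz).2 ((hQi _).1 ?_)
    rw [hpole z h0]
    exact hQ1
  obtain ⟨hν0, hν1, hν2⟩ := hν
  obtain ⟨ν', hν'⟩ := lf_tr (v := u) (u := v) (φ := φ.symm) (mb_symm hφ) conj' (G := G1) (ν := ν) hGb hν0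
    (fun z hz => hν1 z ((hm1 z).1 hz).1) (fun z hz => by
      have h1 := hν2 z (gg (pol v.1) (pol v.2) z) ((hm1 z).1 hz).1 (rf_gg (hGb z hz))
      rwa [der_rf (hGb z hz)] at h1)
  obtain ⟨H, hH⟩ : ∃ H : Set (OnePoint ℂ), H = {x | ∃ z ∈ G1, φ.symm x = (z : OnePoint ℂ)} := ⟨_, rfl⟩
  rw [← hH] at hν'
  have hHm : ∀ x, x ∈ H ↔ φ.symm x ∈ G ∧ φ.symm x ∉ Q := by
    intro x
    rw [hH]
    constructor
    · rintro ⟨z, hz, h1⟩
      rw [h1]
      exact (hm1 z).1 hz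
    · rintro ⟨h1, h2⟩
      have h5 : φ.symm x ≠ OnePoint.infty := by
        intro e
        rw [e] at h2
        exact h2 hQ1
      obtain ⟨z, hz⟩ := OnePoint.ne_infty_iff_exists.1 h5
      rw [← hz] at h1 h2
      exact ⟨z, (hm1 z).2 ⟨h1, h2⟩, hz.symm⟩
  have hHi : ∀ x, Rf u x ∈ H ↔ x ∈ H := by
    intro x
    rw [hHm, hHm, ← conj', hGi, hQi]
  have hHpre : {z : ℂ | (z : OnePoint ℂ) ∈ H} = {z : ℂ | ∃ w ∈ G1, φ.symm (z : OnePoint ℂ) = (w : OnePoint ℂ)} := by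
    rw [hH]
    rfl
  have hHme : MeasurableSet {z : ℂ | (z : OnePoint ℂ) ∈ H} := by
    rw [hHpre]
    exact tr_m (φ.symm.continuous.comp OnePoint.continuous_coe) hG1m
  have hHp : 0 < volume {z : ℂ | (z : OnePoint ℂ) ∈ H} := by
    rw [hHpre]
    refine mb_null (mb_symm hφ) hG1p fun w hw h4 => ?_
    have h5 : φ (w : OnePoint ℂ) = OnePoint.infty := h4
    have h6 : (w : OnePoint ℂ) = φ.symm OnePoint.infty := by
      rw [φ.eq_symm_apply, h5]
    refine ((hm1 w).1 hw).2 ?_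
    rw [h6]
    exact hQ2
  obtain ⟨h1, h2, h3⟩ := hν'
  obtain ⟨μ, hμ⟩ : ∃ μ : ℂ → ℂ, μ = {z : ℂ | (z : OnePoint ℂ) ∈ H}.indicator ν' := ⟨_, rfl⟩
  have hμm : Measurable μ := by
    rw [hμ]
    exact h1.indicator hHme
  have hin : ∀ z : ℂ, (z : OnePoint ℂ) ∈ H → μ z = ν' z := fun z hz => by
    rw [hμ]
    exact indicator_of_mem (s := {z : ℂ | (z : OnePoint ℂ) ∈ H}) hz _
  have hout : ∀ z : ℂ, (z : OnePoint ℂ) ∉ H → μ z = 0 := fun z hz => by
    rw [hμ]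
    exact indicator_of_notMem (s := {z : ℂ | (z : OnePoint ℂ) ∈ H}) hz _
  obtain ⟨x, hx1, hx2⟩ : ∃ x : ℂ, (x : OnePoint ℂ) ∈ H ∧ AC μ x (μ x) := by
    by_contra hcon
    push Not at hcon
    have h4 : volume {z : ℂ | (z : OnePoint ℂ) ∈ H} = 0 :=
      measure_mono_null (fun z hz => hcon z hz) (Pool.Agent.H47.MM.ace hμm)
    exact hHp.ne' h4
  refine ⟨μ, x, ?_, ?_, ?_, hx2, ((hHm x).1 hx1).1⟩
  · intro z w hzw
    by_cases hz : (z : OnePoint ℂ) ∈ H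
    · have hw : (w : OnePoint ℂ) ∈ H := by
        rw [← hzw]
        exact (hHi _).2 hz
      rw [hin z hz, hin w hw]
      exact h3 z w hz hzw
    · have hw : (w : OnePoint ℂ) ∉ H := by
        rw [← hzw]
        exact fun h => hz ((hHi _).1 h)
      rw [hout z hz, hout w hw, zero_mul, zero_mul]
  · have h4 := hGJ ((hHm x).1 hx1).1
    rw [← φ.apply_symm_apply (x : OnePoint ℂ)]
    exact (js_conj φ (fun y => (conj y).symm) _).2 h4
  · rw [hin x hx1]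
    exact h2 x hx1

/-- an orbit which visits all neighbourhoods of a closed set with positive upper density has a limit point in it -/
theorem udn_om {f : OnePoint ℂ → OnePoint ℂ} {L : Set (OnePoint ℂ)} (hL : IsClosed L) {p : OnePoint ℂ} (h : UDn f L p) :
    ∃ y ∈ L, y ∈ Om f p := by
  by_contra hcon
  push Not at hcon
  have h1 : ∀ y ∈ L, ∃ U : Set (OnePoint ℂ), IsOpen U ∧ y ∈ U ∧ ∀ᶠ n : ℕ in atTop, f^[n] p ∉ U := by
    intro y hy
    have h2 : ¬ ∀ U ∈ 𝓝 y, ∃ᶠ n : ℕ in atTop, f^[n] p ∈ U := hcon y hy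
    push Not at h2
    obtain ⟨U, hU, h3⟩ := h2
    obtain ⟨W, hWU, hWo, hyW⟩ := _root_.mem_nhds_iff.1 hU
    refine ⟨W, hWo, hyW, ?_⟩
    have h4 : ∀ᶠ n : ℕ in atTop, f^[n] p ∉ U := by
      simpa [Filter.not_frequently] using h3
    filter_upwards [h4] with n hn h5
    exact hn (hWU h5)
  choose! U hU1 hU2 hU3 using h1
  obtain ⟨t, ht, hcov⟩ := hL.isCompact.elim_nhds_subcover U fun y hy => (hU1 y hy).mem_nhds (hU2 y hy)
  have h2 : ∀ᶠ n : ℕ in atTop, ∀ y ∈ t, f^[n] p ∉ U y :=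
    (Filter.eventually_all_finset t).2 fun y hy => hU3 y (ht y hy)
  obtain ⟨N, hN⟩ := eventually_atTop.1 h2
  obtain ⟨n, hn, h3⟩ := h (⋃ y ∈ t, U y) (isOpen_biUnion fun y hy => hU1 y (ht y hy)) hcov (1 / 2) (by norm_num) (2 * N + 1)
  have h4 : ({k | k < n ∧ f^[k] p ∈ ⋃ y ∈ t, U y} : Set ℕ).ncard ≤ N := by
    have h5 : ({k | k < n ∧ f^[k] p ∈ ⋃ y ∈ t, U y} : Set ℕ) ⊆ ((Finset.range N : Finset ℕ) : Set ℕ) := by
      rintro k ⟨-, hk⟩
      rw [Finset.coe_range]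
      by_contra h6
      obtain ⟨y, hy, h7⟩ := mem_iUnion₂.1 hk
      exact hN k (not_lt.1 h6) y hy h7
    calc ({k | k < n ∧ f^[k] p ∈ ⋃ y ∈ t, U y} : Set ℕ).ncard ≤ ((Finset.range N : Finset ℕ) : Set ℕ).ncard :=
          ncard_le_ncard h5 (Finset.finite_toSet _)
      _ = N := by rw [ncard_coe_finset, Finset.card_range]
  have h5 : (({k | k < n ∧ f^[k] p ∈ ⋃ y ∈ t, U y} : Set ℕ).ncard : ℝ) ≤ N := by exact_mod_cast h4
  have h6 : ((2 * N + 1 : ℕ) : ℝ) ≤ n := by exact_mod_cast hn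
  push_cast at h6
  linarith

theorem om_conj {f g : OnePoint ℂ → OnePoint ℂ} {φ : OnePoint ℂ ≃ₜ OnePoint ℂ} (conj : ∀ x, g (φ x) = φ (f x))
    {p y : OnePoint ℂ} (hy : y ∈ Om f p) : φ y ∈ Om g (φ p) := by
  have hit : ∀ (n : ℕ) (x : OnePoint ℂ), g^[n] (φ x) = φ (f^[n] x) := by
    intro n
    induction n with
    | zero => exact fun _ => rfl
    | succ n ih =>
      intro x
      rw [Function.iterate_succ_apply, conj, ih, Function.iterate_succ_apply]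
  intro U hU
  have h1 : φ ⁻¹' U ∈ 𝓝 y := φ.continuous.continuousAt hU
  refine (hy _ h1).mono fun n hn => ?_
  rw [hit]
  exact hn

theorem lim_closed (f : OnePoint ℂ → OnePoint ℂ) (c : OnePoint ℂ) : IsClosed (Lim f c) :=
  isClosed_setOfPred_clusterPt

end Pool.Agent.H18.MF
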